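import Pool.Agent.H13.L.R3da.NH47.AZ.Coset3

set_option autoImplicit false

universe u

namespace Pool.Agent.Results.MP_0f25e6_al.CoamenableSubgroups

/-- `α * f` is nonzero for every nonzero square-summable `f`, where
`(α * f)(g) = ∑ α(k) f(k⁻¹ g)`. -/
def Regular {G : Type u} [Group G] (α : G →₀ ℂ) : Prop :=
  ∀ f : G → ℂ, Memℓp f 2 → f ≠ 0 → ∃ g : G, ∑ k ∈ α.support, α k * f (k⁻¹ * g) ≠ 0

/-- The analytic zero divisor property: all nonzero elements of the complex group algebra are
regular. -/
def ZeroDivisorProperty (G : Type u) [Group G] : Prop := ∀ α : G →₀ ℂ, α ≠ 0 → Regular α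

/-- All square-summable `f` with `α * f = 0`. -/
def kernel {G : Type u} [Group G] (α : G →₀ ℂ) : Set (lp (fun _ : G => ℂ) 2) :=
  {f | ∀ g : G, ∑ k ∈ α.support, α k * f (k⁻¹ * g) = 0}

open Classical in
/-- The von Neumann dimension of the kernel of left convolution by `α`: one minus the square of the
distance from the basis vector at the identity of `G` to the kernel (this is the squared length of
the projection of that vector to the kernel). -/
noncomputable def kerDim {G : Type u} [Group G] (α : G →₀ ℂ) : ℝ :=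
  1 - Metric.infDist (lp.single 2 (1 : G) (1 : ℂ)) (kernel α) ^ 2

/-- The elements of the kernel of `α` which vanish outside the left cosets of `H` in `Y`. -/
def kernelOn {G : Type u} [Group G] (H : Subgroup G) (Y : Finset (G ⧸ H)) (α : G →₀ ℂ) :
    Set (lp (fun _ : G => ℂ) 2) :=
  {f | f ∈ kernel α ∧ ∀ x : G, f x ≠ 0 → (QuotientGroup.mk x : G ⧸ H) ∈ Y}

open Classical in
/-- The von Neumann dimension over `H` of `kernelOn H Y α`: the sum over the cosets `y` in `Y`, with
a representative `g` of `y`, of the squared length of the projection to this space of the basis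
vector at `g`. -/
noncomputable def kerDimOn {G : Type u} [Group G] (H : Subgroup G) (Y : Finset (G ⧸ H))
    (α : G →₀ ℂ) : ℝ :=
  ∑ y ∈ Y, (1 - Metric.infDist (lp.single 2 (Quotient.out y) (1 : ℂ)) (kernelOn H Y α) ^ 2)

open Classical in
/-- The set of all left cosets `s y` with `s` in `S` and `y` in `Y`. -/
noncomputable def products {G : Type u} [Group G] {H : Subgroup G} (S : Finset G)
    (Y : Finset (G ⧸ H)) : Finset (G ⧸ H) :=
  Finset.image₂ (fun s y => s • y) S Y

/-- The Følner condition for the action of `G` on the left cosets of `H`. -/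
def CoAmenable {G : Type u} [Group G] (H : Subgroup G) : Prop :=
  ∀ (S : Finset G) (ε : ℝ), 0 < ε →
    ∃ Y : Finset (G ⧸ H), Y.Nonempty ∧ ((products S Y).card : ℝ) ≤ (1 + ε) * Y.card

/-- For nonempty finite sets `S` of elements of `G` and `B` of left cosets of `H` there is a left
coset `c` such that exactly one `b` in `B` satisfies `c = s b` for some `s` in `S`. -/
def UniqueCosetProducts {G : Type u} [Group G] (H : Subgroup G) : Prop :=
  ∀ (S : Finset G) (B : Finset (G ⧸ H)), S.Nonempty → B.Nonempty →
    ∃ c : G ⧸ H, ∃! b : G ⧸ H, b ∈ B ∧ ∃ s ∈ S, s • b = c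

/-- Let `G` be any group and `H` any subgroup.

1. (Isoperimetric inequalities.) Let `α` be in the complex group algebra of `G`, with support `S`,
   and let `Y` be a finite set of left cosets of `H`. The dimension over `H` of the part of the
   kernel of `α` on `Y` is at most `|Y|` times the kernel dimension of `α`, and at least
   `|Y| - |SY| (1 - kerDim α)`. In particular `|Y| ≤ |SY| (1 - kerDim α)` if no nonzero element of
   the kernel of `α` is supported on `Y`.
2. (Approximation.) If `H` is co-amenable, then the kernel dimension of `α` is the supremum over `Y`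
   of the dimension of the part of the kernel on `Y` divided by `|Y|`, and `α` is regular if and only
   if no nonzero element of its kernel is supported on finitely many left cosets of `H`.
3. If `H` is co-amenable and has unique coset products, then the zero divisor property of `H`
   implies that of `G`. The condition on unique coset products holds if there is a linear order of
   the left cosets which is invariant under `G`, and if `H` is normal and `G/H` is a unique product
   group.
4. If `H` has the zero divisor property and `α` is nonzero and its support meets at most `m` left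
   cosets of `H`, then the kernel dimension of `α` is at most `1 - 1/m`. -/
theorem result {G : Type u} [Group G] (H : Subgroup G) :
    (∀ (α : G →₀ ℂ) (Y : Finset (G ⧸ H)),
      kerDimOn H Y α ≤ Y.card * kerDim α ∧
      (Y.card : ℝ) - (products α.support Y).card * (1 - kerDim α) ≤ kerDimOn H Y α ∧
      ((∀ f ∈ kernelOn H Y α, f = 0) →
        (Y.card : ℝ) ≤ (products α.support Y).card * (1 - kerDim α))) ∧
    (CoAmenable H → ∀ α : G →₀ ℂ,
      IsLUB {x : ℝ | ∃ Y : Finset (G ⧸ H), Y.Nonempty ∧ x = kerDimOn H Y α / Y.card} (kerDim α) ∧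
      (Regular α ↔ ∀ Y : Finset (G ⧸ H), ∀ f ∈ kernelOn H Y α, f = 0)) ∧
    ((CoAmenable H → UniqueCosetProducts H → ZeroDivisorProperty H → ZeroDivisorProperty G) ∧
      (∀ _ : LinearOrder (G ⧸ H), (∀ (g : G) (x y : G ⧸ H), x ≤ y → g • x ≤ g • y) →
        UniqueCosetProducts H) ∧
      (∀ _ : H.Normal, UniqueProds (G ⧸ H) → UniqueCosetProducts H)) ∧
    (ZeroDivisorProperty H → ∀ (α : G →₀ ℂ) (m : ℕ), α ≠ 0 →
      (∃ C : Finset (G ⧸ H), C.card ≤ m ∧ ∀ s ∈ α.support, (QuotientGroup.mk s : G ⧸ H) ∈ C) →
      kerDim α ≤ 1 - 1 / m) := by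
  classical
  have hk : ∀ β : G →₀ ℂ, kerDim β = NH47.AZ.kdim β := fun β => rfl
  have hkn : ∀ (Y : Finset (G ⧸ H)) (β : G →₀ ℂ), kernelOn H Y β = NH47.AZ.kernOn H Y β :=
    fun Y β => rfl
  have hko : ∀ (Y : Finset (G ⧸ H)) (β : G →₀ ℂ), kerDimOn H Y β = NH47.AZ.kdimOn H Y β :=
    fun Y β => rfl
  have hpr : ∀ (S : Finset G) (Y : Finset (G ⧸ H)), products S Y = NH47.AZ.prodY H S Y := by
    intro S Y
    ext z
    rw [NH47.AZ.mem_prodY]
    unfold products
    rw [Finset.mem_image₂]
  have hr : ∀ β : G →₀ ℂ, Regular β ↔ NH47.AZ.kdim β ≤ 0 := fun β =>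
    NH47.AZ.regular_iff_kdim β
  have hlow : ∀ (α : G →₀ ℂ) (Y : Finset (G ⧸ H)),
      (Y.card : ℝ) - kerDimOn H Y α ≤ (products α.support Y).card * (1 - kerDim α) := by
    intro α Y
    rw [hko, hpr, hk]
    exact NH47.AZ.lower_bd H Y α
  have happ : CoAmenable H → ∀ (α : G →₀ ℂ) (ε : ℝ), 0 < ε →
      ∃ Y : Finset (G ⧸ H), Y.Nonempty ∧ kerDim α - ε ≤ kerDimOn H Y α / Y.card := by
    intro hH α ε hε
    obtain ⟨Y, hY, h⟩ := hH α.support ε hε
    rw [hpr] at h
    exact ⟨Y, hY, NH47.AZ.approx H Y hY α ε h hε.le⟩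
  have hcrit : CoAmenable H → ∀ α : G →₀ ℂ,
      (Regular α ↔ ∀ Y : Finset (G ⧸ H), ∀ f ∈ kernelOn H Y α, f = 0) := by
    intro hH α
    constructor
    · intro hα Y f hf
      by_contra hne
      obtain ⟨g, hg⟩ := hα f f.2 (fun h => hne (lp.ext h))
      exact hg (hf.1 g)
    · intro h
      rw [hr, ← hk]
      by_contra hcon
      push Not at hcon
      obtain ⟨Y, hY, h1⟩ := happ hH α (kerDim α / 2) (by linarith)
      rw [hko, NH47.AZ.kdimOn_eq_zero H Y α (h Y), zero_div] at h1
      linarith
  refine ⟨?_, ?_, ⟨?_, ?_, ?_⟩, ?_⟩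
  · intro α Y
    refine ⟨?_, ?_, ?_⟩
    · rw [hko, hk]
      exact NH47.AZ.upper_bd H Y α
    · have := hlow α Y
      linarith
    · intro h
      have h1 := hlow α Y
      rw [hko, NH47.AZ.kdimOn_eq_zero H Y α h, sub_zero] at h1
      exact h1
  · intro hH α
    refine ⟨⟨?_, ?_⟩, hcrit hH α⟩
    · rintro x ⟨Y, hY, rfl⟩
      have h2 : (0 : ℝ) < Y.card := by exact_mod_cast Finset.card_pos.2 hY
      rw [div_le_iff₀ h2, mul_comm, hko, hk]
      exact NH47.AZ.upper_bd H Y α
    · intro b hb
      apply le_of_forall_pos_le_add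
      intro ε hε
      obtain ⟨Y, hY, h1⟩ := happ hH α ε hε
      have h2 := hb ⟨Y, hY, rfl⟩
      linarith
  · intro hH hU hZ α hα
    rw [hcrit hH]
    intro Y
    exact NH47.AZ.kernOn_trivial H hU hZ α hα Y
  · intro r hr'
    exact NH47.AZ.UCP_of_order H r hr'
  · intro hN hUP
    exact NH47.AZ.UCP_of_uniqueProds H
  · rintro hZ α m hα ⟨C, hCm, hC⟩
    -- the coset of the identity
    have h1 : ∀ f ∈ kernelOn H {((1 : G) : G ⧸ H)} α, f = 0 := by
      rintro f ⟨hf, hfY⟩
      apply lp.ext
      funext x
      by_contra hx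
      obtain ⟨s₀, hs₀⟩ := Finsupp.support_nonempty_iff.2 hα
      have h2 : ∀ x : G, f x ≠ 0 → x ∈ H := by
        intro x hx
        have h3 := hfY x hx
        rw [Finset.mem_singleton] at h3
        have h4 := QuotientGroup.eq.1 h3.symm
        rwa [inv_one, one_mul] at h4
      have h5 := NH47.AZ.unique_coset H α f hf 1 s₀ s₀ hs₀ (by
        rw [mul_one, inv_mul_cancel]; exact H.one_mem) (by
        intro s _ x hx _
        rw [inv_one, one_mul]; exact h2 x hx) hZ x (by
        rw [inv_one, one_mul]; exact h2 x hx)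
      exact hx h5
    have h2 := hlow α {((1 : G) : G ⧸ H)}
    rw [hko, NH47.AZ.kdimOn_eq_zero H _ α h1, sub_zero, Finset.card_singleton] at h2
    have h3 : (products α.support {((1 : G) : G ⧸ H)}).card ≤ m := by
      refine (Finset.card_le_card ?_).trans hCm
      intro z hz
      unfold products at hz
      rw [Finset.mem_image₂] at hz
      obtain ⟨s, hs, y, hy, rfl⟩ := hz
      rw [Finset.mem_singleton] at hy
      subst hy
      have : s • ((1 : G) : G ⧸ H) = QuotientGroup.mk s := by
        change (QuotientGroup.mk (s * 1) : G ⧸ H) = _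
        rw [mul_one]
      rw [this]
      exact hC s hs
    have h4 : kerDim α ≤ 1 := by rw [hk]; exact NH47.AZ.kdim_le_one' α
    have h5 : (1 : ℝ) ≤ m * (1 - kerDim α) := by
      have h6 : ((products α.support {((1 : G) : G ⧸ H)}).card : ℝ) ≤ m := by exact_mod_cast h3
      have h7 := mul_le_mul_of_nonneg_right h6 (by linarith : (0 : ℝ) ≤ 1 - kerDim α)
      push_cast at h2
      linarith
    have hm : (0 : ℝ) < m := by
      rcases Nat.eq_zero_or_pos m with h0 | h0
      · rw [h0] at h5; push_cast at h5; linarith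
      · exact_mod_cast h0
    have h6 : 1 / (m : ℝ) ≤ 1 - kerDim α := by
      rw [div_le_iff₀ hm]; linarith
    linarith

end Pool.Agent.Results.MP_0f25e6_al.CoamenableSubgroups
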